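import Pool.Agent.helper43.NO.Defs

/-!
Module NO-A1: expansion of products over subsets of a set of primes, counts of multiples.
-/

open Finset

namespace Pool.Agent.helper99.NO

open Pool.Agent.helper43.NO

lemma prod_dvd_iff (P : Finset ℕ) (hP : ∀ p ∈ P, p.Prime) (T : Finset ℕ) (hT : T ⊆ P) (m : ℕ) :
    (∏ p ∈ T, p) ∣ m ↔ T ⊆ P.filter (fun p => p ∣ m) := by
  constructor
  · intro h p hp
    exact mem_filter.2 ⟨hT hp, (dvd_prod_of_mem _ hp).trans h⟩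
  · intro h
    apply Finset.prod_primes_dvd
    · intro a ha
      exact (hP a (hT ha)).prime
    · intro a ha
      exact (mem_filter.1 (h ha)).2

lemma sum_pow_card (s : Finset ℕ) (v : ℝ) :
    ∑ T ∈ s.powerset, v ^ T.card = (1 + v) ^ s.card := by
  have h2 : ∏ _i ∈ s, (1 + v) = ∑ T ∈ s.powerset, ∏ _i ∈ T, v := Finset.prod_one_add s
  simp only [prod_const] at h2
  exact h2.symm

lemma sum_ite_powerset (P : Finset ℕ) (v : ℝ) (m : ℕ) (hP : ∀ p ∈ P, p.Prime) :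
    ∑ T ∈ P.powerset, (if (∏ p ∈ T, p) ∣ m then v ^ T.card else 0) = (1 + v) ^ (om P m) := by
  rw [← Finset.sum_filter]
  have h : P.powerset.filter (fun T => (∏ p ∈ T, p) ∣ m)
      = (P.filter (fun p => p ∣ m)).powerset := by
    ext T
    simp only [mem_filter, mem_powerset]
    constructor
    · rintro ⟨h1, h2⟩
      exact (prod_dvd_iff P hP T h1 m).1 h2
    · intro h
      have h1 : T ⊆ P := h.trans (filter_subset _ _)
      exact ⟨h1, (prod_dvd_iff P hP T h1 m).2 h⟩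
  rw [h, sum_pow_card, om]

lemma w_nonneg (P : Finset ℕ) (R : ℕ) (v : ℝ) (m : ℕ) (hv : 0 ≤ v) : 0 ≤ w P R v m := by
  unfold w
  apply sum_nonneg
  intro T _
  split_ifs
  · positivity
  · exact le_refl _

/-- `w(m) ≤ (1+v)^{ω_P(m)}` (a product of distinct primes of `P` divides `m` iff all of them do) -/
lemma w_le (P : Finset ℕ) (R : ℕ) (v : ℝ) (m : ℕ) (hP : ∀ p ∈ P, p.Prime) (hv : 0 ≤ v) :
    w P R v m ≤ (1 + v) ^ (om P m) := by
  rw [← sum_ite_powerset P v m hP]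
  unfold w fam
  apply sum_le_sum_of_subset_of_nonneg (filter_subset _ _)
  intro T _ _
  split_ifs
  · positivity
  · exact le_refl _

lemma pr_eq (P : Finset ℕ) (u : ℝ) :
    pr P u = ∑ T ∈ P.powerset, u ^ T.card / ((∏ p ∈ T, p : ℕ) : ℝ) := by
  unfold pr
  rw [Finset.prod_one_add]
  apply sum_congr rfl
  intro T _
  rw [prod_div_distrib, prod_const, Nat.cast_prod]

/-- `∑_{m ≤ X} u^{ω_P(m)} ≤ X ∏ (1+(u-1)/p)` for `u ≥ 1`
(expand `u^ω = ∑_{T ⊆ P, ∏T ∣ m} (u-1)^{|T|}`, and `⌊X/q⌋ ≤ X/q`) -/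
lemma tilt (P : Finset ℕ) (u : ℝ) (X : ℕ) (hP : ∀ p ∈ P, p.Prime) (hu : 1 ≤ u) :
    ∑ m ∈ Icc 1 X, u ^ (om P m) ≤ X * pr P (u - 1) := by
  have h1 : ∀ m ∈ Icc 1 X, u ^ (om P m)
      = ∑ T ∈ P.powerset, (if (∏ p ∈ T, p) ∣ m then (u - 1) ^ T.card else 0) := by
    intro m _
    rw [sum_ite_powerset P (u - 1) m hP]
    congr 1
    ring
  rw [sum_congr rfl h1, sum_comm, pr_eq, mul_sum]
  apply sum_le_sum
  intro T _
  rw [← sum_filter, sum_const, nsmul_eq_mul]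
  have h2 : ((Icc 1 X).filter (fun m => (∏ p ∈ T, p) ∣ m)).card = X / (∏ p ∈ T, p) := by
    rw [← Nat.Ioc_filter_dvd_card_eq_div X (∏ p ∈ T, p)]
    rfl
  rw [h2]
  have h3 : ((X / (∏ p ∈ T, p) : ℕ) : ℝ) ≤ (X : ℝ) / ((∏ p ∈ T, p : ℕ) : ℝ) := Nat.cast_div_le
  have h4 : 0 ≤ (u - 1) ^ T.card := pow_nonneg (by linarith) _
  calc ((X / (∏ p ∈ T, p) : ℕ) : ℝ) * (u - 1) ^ T.card
      ≤ ((X : ℝ) / ((∏ p ∈ T, p : ℕ) : ℝ)) * (u - 1) ^ T.card := by
        exact mul_le_mul_of_nonneg_right h3 h4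
    _ = (X : ℝ) * ((u - 1) ^ T.card / ((∏ p ∈ T, p : ℕ) : ℝ)) := by ring

lemma lt_aux (n q : ℕ) (hq : 0 < q) : n < (n / q + 1) * q := by
  have h5 := Nat.div_add_mod n q
  have h6 := Nat.mod_lt n hq
  nlinarith

lemma count_shift (K x k q : ℕ) (hq : 0 < q) (hKx : K ≤ x) (hk : k ≤ K) :
    |((((Ioc K x).filter (fun n => q ∣ (n - k))).card : ℕ) : ℝ) - ((x : ℝ) - K) / q| ≤ 1 := by
  have h1 : ((Ioc K x).filter (fun n => q ∣ (n - k))).card
      = ((Ioc (K - k) (x - k)).filter (fun m => q ∣ m)).card := by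
    apply card_bij (fun n _ => n - k)
    · intro n hn
      rw [mem_filter, mem_Ioc] at hn ⊢
      refine ⟨⟨?_, ?_⟩, hn.2⟩ <;> omega
    · intro a ha b hb hab
      rw [mem_filter, mem_Ioc] at ha hb
      omega
    · intro m hm
      rw [mem_filter, mem_Ioc] at hm
      refine ⟨m + k, ?_, by omega⟩
      rw [mem_filter, mem_Ioc]
      refine ⟨⟨by omega, by omega⟩, ?_⟩
      rw [Nat.add_sub_cancel]
      exact hm.2
  have h2 : ((Ioc 0 (x - k)).filter (fun m => q ∣ m)).card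
      = ((Ioc 0 (K - k)).filter (fun m => q ∣ m)).card
        + ((Ioc (K - k) (x - k)).filter (fun m => q ∣ m)).card := by
    rw [← card_union_of_disjoint]
    · congr 1
      ext m
      simp only [mem_filter, mem_Ioc, mem_union]
      constructor
      · rintro ⟨⟨h1, h2⟩, h3⟩
        by_cases h : m ≤ K - k
        · left
          exact ⟨⟨h1, h⟩, h3⟩
        · right
          exact ⟨⟨by omega, h2⟩, h3⟩
      · rintro (⟨⟨h1, h2⟩, h3⟩ | ⟨⟨h1, h2⟩, h3⟩)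
        · exact ⟨⟨h1, by omega⟩, h3⟩
        · exact ⟨⟨by omega, h2⟩, h3⟩
    · rw [disjoint_left]
      intro m hm hm2
      rw [mem_filter, mem_Ioc] at hm hm2
      omega
  rw [Nat.Ioc_filter_dvd_card_eq_div, Nat.Ioc_filter_dvd_card_eq_div, ← h1] at h2
  have hq' : (0 : ℝ) < q := by exact_mod_cast hq
  have e1 : (((x - k : ℕ) : ℝ)) = (x : ℝ) - k := by
    rw [Nat.cast_sub (by omega)]
  have e2 : (((K - k : ℕ) : ℝ)) = (K : ℝ) - k := by
    rw [Nat.cast_sub hk]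
  have a1 : (((x - k) / q : ℕ) : ℝ) ≤ ((x : ℝ) - k) / q := by
    rw [← e1]
    exact Nat.cast_div_le
  have a2 : (((K - k) / q : ℕ) : ℝ) ≤ ((K : ℝ) - k) / q := by
    rw [← e2]
    exact Nat.cast_div_le
  have b1 : ((x : ℝ) - k) / q < (((x - k) / q : ℕ) : ℝ) + 1 := by
    rw [← e1, div_lt_iff₀ hq']
    exact_mod_cast lt_aux (x - k) q hq
  have b2 : ((K : ℝ) - k) / q < (((K - k) / q : ℕ) : ℝ) + 1 := by
    rw [← e2, div_lt_iff₀ hq']
    exact_mod_cast lt_aux (K - k) q hq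
  have h3 : (((x - k) / q : ℕ) : ℝ) = (((K - k) / q : ℕ) : ℝ)
      + ((((Ioc K x).filter (fun n => q ∣ (n - k))).card : ℕ) : ℝ) := by
    exact_mod_cast h2
  have h4 : ((x : ℝ) - K) / q = ((x : ℝ) - k) / q - ((K : ℝ) - k) / q := by ring
  rw [abs_le]
  constructor <;> rw [h4] <;> linarith

/-- first moment of a shift -/
lemma first (P : Finset ℕ) (R : ℕ) (v : ℝ) (K x z k : ℕ) (hP : ∀ p ∈ P, p.Prime ∧ K < p ∧ p ≤ z)
    (hz : 1 ≤ z) (hv : 0 ≤ v) (hKx : K ≤ x) (hk : k ∈ Icc 1 K) :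
    |∑ n ∈ Ioc K x, w P R v (n - k) - ((x : ℝ) - K) * M P R v| ≤ (z : ℝ) ^ R * M P R v := by
  have hk' : k ≤ K := (mem_Icc.1 hk).2
  have e1 : ∑ n ∈ Ioc K x, w P R v (n - k)
      = ∑ T ∈ fam P R, v ^ T.card
        * ((((Ioc K x).filter (fun n => (∏ p ∈ T, p) ∣ (n - k))).card : ℕ) : ℝ) := by
    unfold w
    rw [sum_comm]
    apply sum_congr rfl
    intro T _
    rw [← sum_filter, sum_const, nsmul_eq_mul, mul_comm]
  have e2 : ∑ n ∈ Ioc K x, w P R v (n - k) - ((x : ℝ) - K) * M P R v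
      = ∑ T ∈ fam P R, v ^ T.card
        * (((((Ioc K x).filter (fun n => (∏ p ∈ T, p) ∣ (n - k))).card : ℕ) : ℝ)
          - ((x : ℝ) - K) / ((∏ p ∈ T, p : ℕ) : ℝ)) := by
    rw [e1, M, mul_sum, ← sum_sub_distrib]
    apply sum_congr rfl
    intro T _
    ring
  rw [e2, M, mul_sum]
  apply (abs_sum_le_sum_abs _ _).trans
  apply sum_le_sum
  intro T hT
  have hT1 : T ⊆ P := mem_powerset.1 (mem_filter.1 hT).1
  have hT2 : T.card ≤ R := (mem_filter.1 hT).2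
  have hq : 0 < ∏ p ∈ T, p := prod_pos (fun p hp => (hP p (hT1 hp)).1.pos)
  have hq' : (0 : ℝ) < ((∏ p ∈ T, p : ℕ) : ℝ) := by exact_mod_cast hq
  have hqz : (∏ p ∈ T, p) ≤ z ^ R := by
    calc (∏ p ∈ T, p) ≤ z ^ T.card := prod_le_pow_card _ _ _ (fun p hp => (hP p (hT1 hp)).2.2)
      _ ≤ z ^ R := Nat.pow_le_pow_right hz hT2
  have hqz' : ((∏ p ∈ T, p : ℕ) : ℝ) ≤ (z : ℝ) ^ R := by exact_mod_cast hqz
  have hvT : 0 ≤ v ^ T.card := pow_nonneg hv _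
  rw [abs_mul, abs_of_nonneg hvT]
  have hc := count_shift K x k (∏ p ∈ T, p) hq hKx hk'
  calc v ^ T.card * |((((Ioc K x).filter (fun n => (∏ p ∈ T, p) ∣ (n - k))).card : ℕ) : ℝ)
          - ((x : ℝ) - K) / ((∏ p ∈ T, p : ℕ) : ℝ)|
      ≤ v ^ T.card * 1 := mul_le_mul_of_nonneg_left hc hvT
    _ ≤ v ^ T.card * ((z : ℝ) ^ R / ((∏ p ∈ T, p : ℕ) : ℝ)) := by
        apply mul_le_mul_of_nonneg_left _ hvT
        rw [le_div_iff₀ hq', one_mul]
        exact hqz'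
    _ = (z : ℝ) ^ R * (v ^ T.card / ((∏ p ∈ T, p : ℕ) : ℝ)) := by ring

end Pool.Agent.helper99.NO
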